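import Pool.Agent.H8.SSA.EVA

set_option autoImplicit false
set_option linter.unusedVariables false
set_option synthInstance.maxSize 100000

/-!
Domination in the generic quotient.
-/

namespace SSA

open SW CU CUR

section
variable {N : Type} [SetStr N]

/-- `g` is a function on the set `o` of natural numbers -/
def FunR (o g : N) : Prop := ∀ a, E a o → ∃ b, (E b o ∧ PairIn a b g) ∧
  ∀ b', E b' o → PairIn a b' g → b' = b

/-- the function `g` is dominated by the function number `x` -/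
def DomR (o x z g : N) : Prop := ∀ n v u, E n o → E v o → E u o → PairIn n v g → Trr x n u z →
  E v u ∨ v = u

end

theorem FunR_u0 : UDf (fun M _ (w : Fin 2 → M) => FunR (w 0) (w 1)) := by
  unfold FunR; infer_instance

instance {n : ℕ} {t s : ∀ (M : Type) [SetStr M], (Fin n → M) → M} [UV t] [UV s] :
    UDf (fun M _ v => FunR (t M v) (s M v)) :=
  FunR_u0.comp2 (R := fun _ _ a b => FunR a b) t s

theorem DomR_u0 : UDf (fun M _ (w : Fin 4 → M) => DomR (w 0) (w 1) (w 2) (w 3)) := by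
  unfold DomR; infer_instance

instance {n : ℕ} {t s u x : ∀ (M : Type) [SetStr M], (Fin n → M) → M} [UV t] [UV s] [UV u]
    [UV x] : UDf (fun M _ v => DomR (t M v) (s M v) (u M v) (x M v)) :=
  DomR_u0.comp4 (R := fun _ _ a b c d => DomR a b c d) t s u x

/-- a generic quotient below `p` with given names, the names of the natural numbers and of
omega -/
theorem gen_rich {P : Type} [Preorder P] (p : P) (η : ℕ → HN P Tg) :
    ∃ (ν : ℕ → HN P Tg) (c : ℕ → P) (u : ℕ → ℕ), Gn ν c ∧ c 0 ≤ p ∧ Rich ν ∧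
      ∀ i, ν (u i) = η i := by
  obtain ⟨ν, c, h1, h2, h3⟩ := genExists P Tg p (fun i => if i % 2 = 0 then η (i / 2) else
    if i = 1 then omH P Tg else numH P Tg (i / 2 - 1))
  choose j hj using h3
  refine ⟨ν, c, fun i => j (2 * i), h1, h2, ⟨fun n => ⟨j (2 * (n + 1) + 1), ?_⟩, ⟨j 1, ?_⟩⟩,
    fun i => ?_⟩
  · rw [hj, if_neg (by omega), if_neg (by omega)]
    congr 1
    omega
  · rw [hj, if_neg (by omega), if_pos rfl]
  · rw [hj, if_pos (by omega)]
    congr 1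
    omega

section
variable {P : Type} [Preorder P]

/-- `p` forces: if `g` is a function, then its value at `n` is `v` -/
def Rg (g : HN P Tg) (p : P) (n v : ℕ) : Prop :=
  FS (fun N _ (w : Fin 4 → N) => FunR (w 0) (w 1) → PairIn (w 2) (w 3) (w 1)) p
    ![omH P Tg, g, numH P Tg n, numH P Tg v]

theorem Rg_mono (g : HN P Tg) (n m : ℕ) (p q : P) (hq : q ≤ p) (h : Rg g p n m) : Rg g q n m :=
  fs_mono _ hq h

theorem Rg_dense (hB : BASStmt) (g : HN P Tg) (n : ℕ) (p : P) :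
    ∃ q, q ≤ p ∧ ∃ m, Rg g q n m := by
  obtain ⟨ν, c, u, hg, hc, hr, hu⟩ := gen_rich p (fun _ => g)
  have := gn_zf hg
  obtain ⟨b1, b2, b3⟩ := hB P ν c hg hr
  obtain ⟨o, ho⟩ := hr.2
  obtain ⟨j, hj⟩ := hr.1 n
  have key : ∃ v : ℕ, FunR (qc ν c o) (qc ν c (u 0)) →
      PairIn (qc ν c j) (nu v) (qc ν c (u 0)) := by
    by_cases hF : FunR (qc ν c o) (qc ν c (u 0))
    · obtain ⟨b, ⟨hb, hp⟩, _⟩ := hF (qc ν c j) (by rw [b3 o ho, b2 j n hj]; exact nu_mem_om n)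
      rw [b3 o ho] at hb
      obtain ⟨v, rfl⟩ := b1 b hb
      exact ⟨v, fun _ => hp⟩
    · exact ⟨0, fun h => absurd h hF⟩
  obtain ⟨v, hv⟩ := key
  obtain ⟨i, hi⟩ := hr.1 v
  rw [← b2 i v hi] at hv
  obtain ⟨k, hk⟩ := (fs_truth (fun N _ (w : Fin 4 → N) => FunR (w 0) (w 1) →
    PairIn (w 2) (w 3) (w 1)) ν c hg ![o, u 0, j, i]).1 hv
  refine ⟨c k, (le_of_anti hg.anti 0 k (Nat.zero_le _)).trans hc, v, ?_⟩
  have e : (fun t => ν (![o, u 0, j, i] t)) = ![omH P Tg, g, numH P Tg n, numH P Tg v] := by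
    funext t
    fin_cases t
    · exact ho
    · exact hu 0
    · exact hj
    · exact hi
  rw [e] at hk
  exact hk

/-- membership of a pair of natural numbers is forced -/
theorem pair_forced (hB : BASStmt) {ν : ℕ → HN P Tg} {c : ℕ → P} (hg : Gn ν c) (hr : Rich ν)
    [ZF (GQ ν c)] (g n v : ℕ) (h : E (opair (nu n) (nu v)) (qc ν c g)) :
    ∃ k, FS (fun N _ (w : Fin 3 → N) => PairIn (w 0) (w 1) (w 2)) (c k)
      ![numH P Tg n, numH P Tg v, ν g] := by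
  obtain ⟨b1, b2, b3⟩ := hB P ν c hg hr
  obtain ⟨i, hi⟩ := hr.1 n
  obtain ⟨j, hj⟩ := hr.1 v
  rw [← b2 j v hj, ← b2 i n hi, ← pairIn_iff] at h
  obtain ⟨k, hk⟩ := (fs_truth (fun N _ (w : Fin 3 → N) => PairIn (w 0) (w 1) (w 2)) ν c hg
    ![i, j, g]).1 h
  refine ⟨k, ?_⟩
  have e : (fun t => ν (![i, j, g] t)) = ![numH P Tg n, numH P Tg v, ν g] := by
    funext t
    fin_cases t
    · exact hi
    · exact hj
    · rfl
  rw [e] at hk
  exact hk

/-- the forced value is unique -/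
theorem val_unique (hB : BASStmt) (g : HN P Tg) (p : P) (n v v' : ℕ) (h1 : Rg g p n v')
    (h2 : FS (fun N _ (w : Fin 2 → N) => FunR (w 0) (w 1)) p ![omH P Tg, g])
    (h3 : FS (fun N _ (w : Fin 3 → N) => PairIn (w 0) (w 1) (w 2)) p
      ![numH P Tg n, numH P Tg v, g]) : v = v' := by
  obtain ⟨ν, c, u, hg, hc, hr, hu⟩ := gen_rich p (fun _ => g)
  have := gn_zf hg
  obtain ⟨b1, b2, b3⟩ := hB P ν c hg hr
  obtain ⟨o, ho⟩ := hr.2
  obtain ⟨j, hj⟩ := hr.1 n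
  obtain ⟨i, hi⟩ := hr.1 v
  obtain ⟨i', hi'⟩ := hr.1 v'
  have f2 : FunR (qc ν c o) (qc ν c (u 0)) := h2 ν c hg ⟨0, hc⟩ ![o, u 0] (by
    intro t
    fin_cases t
    · exact ho
    · exact hu 0)
  have f1 : PairIn (qc ν c j) (qc ν c i') (qc ν c (u 0)) := h1 ν c hg ⟨0, hc⟩ ![o, u 0, j, i'] (by
    intro t
    fin_cases t
    · exact ho
    · exact hu 0
    · exact hj
    · exact hi') f2
  have f3 : PairIn (qc ν c j) (qc ν c i) (qc ν c (u 0)) := h3 ν c hg ⟨0, hc⟩ ![j, i, u 0] (by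
    intro t
    fin_cases t
    · exact hj
    · exact hi
    · exact hu 0)
  have e1 : E (qc ν c i) (qc ν c o) := by rw [b3 o ho, b2 i v hi]; exact nu_mem_om v
  have e2 : E (qc ν c i') (qc ν c o) := by rw [b3 o ho, b2 i' v' hi']; exact nu_mem_om v'
  obtain ⟨b, _, hb⟩ := f2 (qc ν c j) (by rw [b3 o ho, b2 j n hj]; exact nu_mem_om n)
  have := (hb _ e1 f3).trans (hb _ e2 f1).symm
  rw [b2 i v hi, b2 i' v' hi'] at this
  exact nu_inj this

end

theorem ssa_dmf (hN : NMIStmt) (hR : RELStmt) (hP : PINStmt) (hB : BASStmt) (hG : GETStmt) :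
    DMFStmt := by
  intro P _ Ω _ _ D ν c hg hr _ o z ho hz g hfun
  obtain ⟨m, rfl⟩ := gn_surj g
  obtain ⟨b1, b2, b3⟩ := hB P ν c hg hr
  obtain ⟨w0, hw0⟩ := hr.2
  -- the hypothesis is forced
  have hF : FunR (qc ν c w0) (qc ν c m) := by
    intro a ha
    rw [b3 w0 hw0] at ha
    obtain ⟨n, rfl⟩ := b1 a ha
    obtain ⟨v, hv, hv'⟩ := hfun n
    refine ⟨nu v, ⟨by rw [b3 w0 hw0]; exact nu_mem_om v, pairIn_iff.2 hv⟩, fun b' hb' h' => ?_⟩
    rw [b3 w0 hw0] at hb'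
    obtain ⟨v', rfl⟩ := b1 b' hb'
    rw [hv' v' (pairIn_iff.1 h')]
  obtain ⟨k, hk⟩ := (fs_truth (fun N _ (w : Fin 2 → N) => FunR (w 0) (w 1)) ν c hg ![w0, m]).1 hF
  have e : (fun t => ν (![w0, m] t)) = ![omH P Tg, ν m] := by
    funext t
    fin_cases t
    · exact hw0
    · rfl
  rw [e] at hk
  -- the dense set
  let V : P → Prop := fun q => ∃ ξ : Ω, ∀ n r, r ≤ q → ∃ s, s ≤ r ∧ ∃ m' v, m' ≤ v ∧
    Rg (ν m) s n m' ∧ D.zr s ξ n v
  have hV : ∀ q, q ≤ c k → ∃ r, r ≤ q ∧ V r := by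
    intro q _
    obtain ⟨r, h1, ξ, h2⟩ := D.dom (Rg (ν m)) (fun n p => Rg_dense hB (ν m) n p)
      (fun n v p q hq h => Rg_mono (ν m) n v p q hq h) q
    exact ⟨r, h1, ξ, h2⟩
  have hE := ssa_eva hN hR hP hB
  have main := hG P ν c hg (fun N _ (w : Fin 4 → N) => ∃ x, E x (w 1) ∧
    DomR (w 0) x (w 2) (w 3)) ![w0, o, z, m] k V hV (fun r hr1 hr2 => by
      obtain ⟨ξ, hξ⟩ := hr1
      refine ⟨fun _ => chkH ξ, fun ν' c' hg' hr' hl w' hw' u hu => ?_⟩
      have := gn_zf hg'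
      obtain ⟨d1, d2, d3⟩ := hB P ν' c' hg' hr'
      obtain ⟨e1, e2, e3, e4, e5⟩ := hE P Ω D ν' c' hg' hr'
      have hle := le_of_anti hg'.anti
      have q0 : ν' (w' 0) = omH P Tg := (hw' 0).trans hw0
      have q1 : ν' (w' 1) = oN P Ω := (hw' 1).trans ho
      have q2 : ν' (w' 2) = zN D := (hw' 2).trans hz
      have q3 : ν' (w' 3) = ν m := hw' 3
      refine ⟨qc ν' c' (u 0), (e1 _ q1 _).2 ⟨ξ, u 0, hu 0, rfl⟩, ?_⟩
      intro n v y hn hv hy hnv hny
      beta_reduce at hn hv hy hnv hny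
      rw [d3 _ q0] at hn hv hy
      obtain ⟨n, rfl⟩ := d1 n hn
      obtain ⟨v, rfl⟩ := d1 v hv
      obtain ⟨y, rfl⟩ := d1 y hy
      obtain ⟨l1, hl1⟩ := pair_forced hB hg' hr' (w' 3) n v (pairIn_iff.1 hnv)
      obtain ⟨l2, hl2⟩ := (e4 (w' 2) (u 0) ξ n y q2 (hu 0)).1 (trr_iff8.1 hny)
      obtain ⟨l3, hl3⟩ := hl
      rw [q3] at hl1
      let l := max l1 (max l2 l3)
      have i1 : c' l ≤ c' l1 := hle _ _ (le_max_left _ _)
      have i2 : c' l ≤ c' l2 := hle _ _ ((le_max_left _ _).trans (le_max_right _ _))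
      have i3 : c' l ≤ r := (hle _ _ ((le_max_right _ _).trans (le_max_right _ _))).trans hl3
      obtain ⟨s, hs, m', v', h1, h2, h3⟩ := hξ n (c' l) i3
      obtain ⟨s', hs', h4⟩ := hl2 s (hs.trans i2)
      have h5 : v' = y := D.zr_fun (D.zr_mono hs' h3) h4
      have h6 : v = m' := val_unique hB (ν m) s' n v m' (Rg_mono _ _ _ _ _ hs' h2)
        (fs_mono _ (((hs'.trans hs).trans i3).trans hr2) hk)
        (fs_mono _ ((hs'.trans hs).trans i1) hl1)
      have h7 : v ≤ y := by omega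
      rcases h7.lt_or_eq with h | h
      · exact Or.inl (nu_lt h)
      · exact Or.inr (by rw [h]))
  obtain ⟨x, hx, hd⟩ := main
  refine ⟨x, hx, fun n v u h1 h2 => ?_⟩
  have q0 : qc ν c w0 = om := b3 w0 hw0
  have := hd (nu n) (nu v) (nu u) (by show E _ (qc ν c w0); rw [q0]; exact nu_mem_om n)
    (by show E _ (qc ν c w0); rw [q0]; exact nu_mem_om v)
    (by show E _ (qc ν c w0); rw [q0]; exact nu_mem_om u) (pairIn_iff.2 h1) (trr_iff8.2 h2)
  rcases this with h | h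
  · obtain ⟨i, hi, e⟩ := (mem_nu u _).1 h
    rw [nu_inj e]
    exact hi.le
  · exact (nu_inj h).le

end SSA
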