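import Pool.Agent.H77.SSA.GDefs

set_option autoImplicit false
set_option linter.unusedVariables false
set_option synthInstance.maxSize 100000

/-!
Values of the names in the generic quotient.
-/

namespace SSA

open SW CU CUR

/-- triples -/
theorem trr_iff8 {N : Type} [SetStr N] [ZF N] {x y z R : N} :
    Trr x y z R ↔ E (opair x (opair y z)) R := by
  unfold Trr
  constructor
  · rintro ⟨u, h1, h2⟩
    rw [isOP_iff] at h1
    subst h1
    exact pairIn_iff.1 h2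
  · intro h
    exact ⟨_, isOP_iff.2 rfl, pairIn_iff.2 h⟩

theorem ssa_eva (hN : NMIStmt) (hR : RELStmt) (hP : PINStmt) (hB : BASStmt) : EVAStmt := by
  intro P _ Ω _ _ D ν c hg hr _
  obtain ⟨b1, b2, b3⟩ := hB P ν c hg hr
  have hle := le_of_anti hg.anti
  -- pairs and triples
  have pr : ∀ (m b v : ℕ) (k : HN P Tg), ν b = k →
      (E (opair (qc ν c m) (nu v)) (qc ν c b) ↔
        ∃ l, MemF (opN (ν m) (numH P Tg v)).1 k.1 (c l)) := by
    intro m b v k hk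
    obtain ⟨j, hj⟩ := hr.1 v
    rw [← b2 j v hj, ← pairIn_iff]
    have h1 := fs_truth (fun N _ (w : Fin 3 → N) => PairIn (w 0) (w 1) (w 2)) ν c hg ![m, j, b]
    have e : (fun i => ν (![m, j, b] i)) = ![ν m, numH P Tg v, k] := by
      funext i
      fin_cases i
      · rfl
      · exact hj
      · exact hk
    rw [e] at h1
    refine Iff.trans h1 (exists_congr fun l => ?_)
    exact (hP P (c l) (ν m) (numH P Tg v) k k).1
  have tr : ∀ (m b n v : ℕ) (k : HN P Tg), ν b = k →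
      (E (opair (qc ν c m) (opair (nu n) (nu v))) (qc ν c b) ↔
        ∃ l, MemF (opN (ν m) (opN (numH P Tg n) (numH P Tg v))).1 k.1 (c l)) := by
    intro m b n v k hk
    obtain ⟨j, hj⟩ := hr.1 v
    obtain ⟨i, hi⟩ := hr.1 n
    rw [← b2 j v hj, ← b2 i n hi, ← trr_iff8]
    have h1 := fs_truth (fun N _ (w : Fin 4 → N) => Trr (w 0) (w 1) (w 2) (w 3)) ν c hg
      ![m, i, j, b]
    have e : (fun t => ν (![m, i, j, b] t)) = ![ν m, numH P Tg n, numH P Tg v, k] := by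
      funext t
      fin_cases t
      · rfl
      · exact hi
      · exact hj
      · exact hk
    rw [e] at h1
    refine Iff.trans h1 (exists_congr fun l => ?_)
    exact (hP P (c l) (ν m) (numH P Tg n) (numH P Tg v) k).2
  obtain ⟨n1, n2, n3⟩ := hN P
  refine ⟨?_, ?_, ?_, ?_, ?_⟩
  · intro o ho y
    rw [gn_mem_iff' hg]
    constructor
    · rintro ⟨m, l, i, h1, h2, rfl⟩
      have gen : ∀ b : Nm P, b = (oN P Ω).1 → ∀ i : b.I, ∃ ξ : Ω, b.el i = chk ξ := by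
        rintro _ rfl i
        exact ⟨i.1, rfl⟩
      obtain ⟨ξ, hξ⟩ := gen (ν o).1 (by rw [ho]) i
      exact ⟨ξ, m, Subtype.ext (h1.symm.trans hξ), rfl⟩
    · rintro ⟨ξ, m, hm, rfl⟩
      have gen : ∀ b : Nm P, b = (oN P Ω).1 → ∃ i : b.I, b.el i = chk ξ ∧ c 0 ≤ b.cd i := by
        rintro _ rfl
        exact ⟨(ξ, c 0), rfl, le_rfl⟩
      obtain ⟨i, h1, h2⟩ := gen (ν o).1 (by rw [ho])
      exact ⟨m, 0, i, by rw [h1, hm]; rfl, h2, rfl⟩
  · intro m m' ξ ξ' hm hm'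
    rw [gn_eq_iff hg]
    constructor
    · rintro ⟨k, hk⟩
      rw [hm, hm'] at hk
      exact n3 Ω ξ ξ' _ hk
    · rintro rfl
      exact ⟨0, by rw [hm, hm']; exact eqF_refl _ _⟩
  · intro b m ξ v hb hm
    rw [pr m b v _ hb, hm]
    refine exists_congr fun l => ?_
    refine hR P (Ω × ℕ) (fun p i => D.ar p i.1 i.2) (fun i => opN (chkH i.1) (numH P Tg i.2))
      (fun p q i h1 h2 => D.ar_mono h1 h2) (fun i j p h => ?_) (ξ, v) (c l)
    obtain ⟨h1, h2⟩ := n2 _ _ _ _ _ h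
    exact Prod.ext (n3 Ω _ _ _ h1) (n1 _ _ _ h2)
  · intro b m ξ n v hb hm
    rw [tr m b n v _ hb, hm]
    refine exists_congr fun l => ?_
    refine hR P (Ω × ℕ × ℕ) (fun p i => D.zr p i.1 i.2.1 i.2.2)
      (fun i => opN (chkH i.1) (opN (numH P Tg i.2.1) (numH P Tg i.2.2)))
      (fun p q i h1 h2 => D.zr_mono h1 h2) (fun i j p h => ?_) (ξ, n, v) (c l)
    obtain ⟨h1, h2⟩ := n2 _ _ _ _ _ h
    obtain ⟨h3, h4⟩ := n2 _ _ _ _ _ h2
    exact Prod.ext (n3 Ω _ _ _ h1) (Prod.ext (n1 _ _ _ h3) (n1 _ _ _ h4))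
  · intro H hH b n v hb
    obtain ⟨j, hj⟩ := hr.1 n
    rw [← b2 j n hj, pr j b v _ hb, hj]
    refine exists_congr fun l => ?_
    refine hR P (ℕ × ℕ) (fun p i => H p i.1 i.2)
      (fun i => opN (numH P Tg i.1) (numH P Tg i.2))
      (fun p q i h1 h2 => hH _ _ p q h1 h2) (fun i j p h => ?_) (n, v) (c l)
    obtain ⟨h1, h2⟩ := n2 _ _ _ _ _ h
    exact Prod.ext (n1 _ _ _ h1) (n1 _ _ _ h2)

end SSA
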