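import Pool.Agent.H8.SSA.DMF

set_option autoImplicit false
set_option linter.unusedVariables false
set_option synthInstance.maxSize 100000

/-!
Selectivity in the generic quotient.
-/

namespace SSA

open SW CU CUR

section
variable {N : Type} [SetStr N]

/-- `F` is total: for every `x` in `i` and every natural number there is a value -/
def TotR (i o F : N) : Prop := ∀ x, E x i → ∀ n, E n o → ∃ m, E m o ∧ Trr x n m F

/-- the first property of `H`, for `x` and `n` -/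
def Sa (o b H x n : N) : Prop := ∃ k, E k o ∧ ∀ v, E v o → (E k v ∨ k = v) →
  ¬ (PairIn n v H ∧ PairIn x v b)

/-- the second property of `H`, for `x` -/
def Sb (o b F H x : N) : Prop := ∃ n m v, E n o ∧ E m o ∧ E v o ∧ (E m v ∨ m = v) ∧
  Trr x n m F ∧ PairIn n v H ∧ PairIn x v b

/-- the two properties of `H` -/
def Sc (o i b F H : N) : Prop := (∀ x, E x i → ∀ n, E n o → Sa o b H x n) ∧
  ∀ x, E x i → Sb o b F H x

end

theorem TotR_u0 : UDf (fun M _ (w : Fin 3 → M) => TotR (w 0) (w 1) (w 2)) := by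
  unfold TotR; infer_instance

instance {n : ℕ} {t s u : ∀ (M : Type) [SetStr M], (Fin n → M) → M} [UV t] [UV s] [UV u] :
    UDf (fun M _ v => TotR (t M v) (s M v) (u M v)) :=
  TotR_u0.comp3 (R := fun _ _ a b c => TotR a b c) t s u

theorem Sa_u0 : UDf (fun M _ (w : Fin 5 → M) => Sa (w 0) (w 1) (w 2) (w 3) (w 4)) := by
  unfold Sa; infer_instance

theorem Sb_u0 : UDf (fun M _ (w : Fin 5 → M) => Sb (w 0) (w 1) (w 2) (w 3) (w 4)) := by
  unfold Sb; infer_instance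

theorem Sc_u0 : UDf (fun M _ (w : Fin 4 → M) => ∃ H, Sc (w 0) (w 1) (w 2) (w 3) H) := by
  unfold Sc Sa Sb; infer_instance

section
variable {P : Type} [Preorder P]

/-- `p` forces: if `F` is total, then `m` is a value at `x`, `n` -/
def Rs (i : HN P Tg) (F : HN P Tg) (x : HN P Tg) (p : P) (n m : ℕ) : Prop :=
  FS (fun N _ (w : Fin 6 → N) => TotR (w 0) (w 1) (w 2) → Trr (w 3) (w 4) (w 5) (w 2)) p
    ![i, omH P Tg, F, x, numH P Tg n, numH P Tg m]

theorem Rs_mono (i F x : HN P Tg) (n m : ℕ) (p q : P) (hq : q ≤ p) (h : Rs i F x p n m) :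
    Rs i F x q n m := fs_mono _ hq h

theorem Rs_dense (hB : BASStmt) (i F x : HN P Tg) (hx : ∀ p, CU.MemF x.1 i.1 p) (n : ℕ)
    (p : P) : ∃ q, q ≤ p ∧ ∃ m, Rs i F x q n m := by
  obtain ⟨ν, c, u, hg, hc, hr, hu⟩ := gen_rich p
    (fun t => if t = 0 then i else if t = 1 then F else x)
  have := gn_zf hg
  obtain ⟨b1, b2, b3⟩ := hB P ν c hg hr
  obtain ⟨o, ho⟩ := hr.2
  obtain ⟨j, hj⟩ := hr.1 n
  have u0 : ν (u 0) = i := hu 0
  have u1 : ν (u 1) = F := hu 1
  have u2 : ν (u 2) = x := hu 2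
  have key : ∃ v : ℕ, TotR (qc ν c (u 0)) (qc ν c o) (qc ν c (u 1)) →
      Trr (qc ν c (u 2)) (qc ν c j) (nu v) (qc ν c (u 1)) := by
    by_cases hF : TotR (qc ν c (u 0)) (qc ν c o) (qc ν c (u 1))
    · have h1 : E (qc ν c (u 2)) (qc ν c (u 0)) :=
        (gn_mem_iff hg _ _).2 ⟨0, by rw [u0, u2]; exact hx _⟩
      obtain ⟨b, hb, hp⟩ := hF _ h1 (qc ν c j) (by
        rw [b3 o ho, b2 j n hj]; exact nu_mem_om n)
      rw [b3 o ho] at hb
      obtain ⟨v, rfl⟩ := b1 b hb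
      exact ⟨v, fun _ => hp⟩
    · exact ⟨0, fun h => absurd h hF⟩
  obtain ⟨v, hv⟩ := key
  obtain ⟨y, hy⟩ := hr.1 v
  rw [← b2 y v hy] at hv
  obtain ⟨k, hk⟩ := (fs_truth (fun N _ (w : Fin 6 → N) => TotR (w 0) (w 1) (w 2) →
    Trr (w 3) (w 4) (w 5) (w 2)) ν c hg ![u 0, o, u 1, u 2, j, y]).1 hv
  refine ⟨c k, (le_of_anti hg.anti 0 k (Nat.zero_le _)).trans hc, v, ?_⟩
  have e : (fun t => ν (![u 0, o, u 1, u 2, j, y] t)) =
      ![i, omH P Tg, F, x, numH P Tg n, numH P Tg v] := by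
    funext t
    fin_cases t
    · exact u0
    · exact ho
    · exact u1
    · exact u2
    · exact hj
    · exact hy
  rw [e] at hk
  exact hk

end

theorem ssa_slf (hN : NMIStmt) (hR : RELStmt) (hP : PINStmt) (hB : BASStmt) (hG : GETStmt) :
    SLFStmt := by
  intro P _ Ω _ _ D ν c hg hr _ o b ho hb F hfun
  obtain ⟨m, rfl⟩ := gn_surj F
  have hE := ssa_eva hN hR hP hB
  obtain ⟨b1, b2, b3⟩ := hB P ν c hg hr
  obtain ⟨w0, hw0⟩ := hr.2
  have hle0 := le_of_anti hg.anti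
  -- the hypothesis is forced
  have hF : TotR (qc ν c o) (qc ν c w0) (qc ν c m) := by
    intro x hx a ha
    rw [b3 w0 hw0] at ha
    obtain ⟨n, rfl⟩ := b1 a ha
    obtain ⟨v, hv⟩ := hfun x hx n
    exact ⟨nu v, by rw [b3 w0 hw0]; exact nu_mem_om v, trr_iff8.2 hv⟩
  obtain ⟨k, hk⟩ := (fs_truth (fun N _ (w : Fin 3 → N) => TotR (w 0) (w 1) (w 2)) ν c hg
    ![o, w0, m]).1 hF
  have e : (fun t => ν (![o, w0, m] t)) = ![oN P Ω, omH P Tg, ν m] := by
    funext t
    fin_cases t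
    · exact ho
    · exact hw0
    · rfl
  rw [e] at hk
  have hmem : ∀ (ξ : Ω) (p : P), CU.MemF (chkH ξ : HN P Tg).1 (oN P Ω).1 p := fun ξ p =>
    memF_famN (fun ξ : Ω => (chk ξ : Nm P)) ξ p
  obtain ⟨H, H1, H2, H3⟩ := D.ssa (fun p ξ n v => Rs (oN P Ω) (ν m) (chkH ξ) p n v)
    (fun ξ n p => Rs_dense hB _ _ _ (hmem ξ) n p) (fun ξ n v p q hq h => Rs_mono _ _ _ _ _ _ _ hq h)
  have i1 := Sc_u0
  have main := hG P ν c hg (fun N _ (w : Fin 4 → N) => ∃ H, Sc (w 0) (w 1) (w 2) (w 3) H)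
    ![w0, o, b, m] k (fun _ => True) (fun q _ => ⟨q, le_rfl, trivial⟩) (fun r _ hr2 => by
      refine ⟨fun _ => SSA.hN H, fun ν' c' hg' hr' hl w' hw' u hu => ?_⟩
      have := gn_zf hg'
      obtain ⟨d1, d2, d3⟩ := hB P ν' c' hg' hr'
      obtain ⟨e1, e2, e3, e4, e5⟩ := hE P Ω D ν' c' hg' hr'
      have hle := le_of_anti hg'.anti
      have q0 : ν' (w' 0) = omH P Tg := (hw' 0).trans hw0
      have q1 : ν' (w' 1) = oN P Ω := (hw' 1).trans ho
      have q2 : ν' (w' 2) = aN D := (hw' 2).trans hb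
      have q3 : ν' (w' 3) = ν m := hw' 3
      have qu : ν' (u 0) = SSA.hN H := hu 0
      obtain ⟨l0, hl0⟩ := hl
      refine ⟨qc ν' c' (u 0), ?_, ?_⟩
      · intro x hx n hn
        beta_reduce at hx hn ⊢
        rw [d3 _ q0] at hn
        obtain ⟨n, rfl⟩ := d1 n hn
        obtain ⟨ξ, j, hj, rfl⟩ := (e1 _ q1 x).1 hx
        obtain ⟨jn, hjn⟩ := hr'.1 n
        rw [← d2 jn n hjn]
        have i2 := Sa_u0
        refine hG P ν' c' hg' (fun N _ (w : Fin 5 → N) => Sa (w 0) (w 1) (w 2) (w 3) (w 4))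
          ![w' 0, w' 2, u 0, j, jn] 0
          (fun q => ∃ N, ∀ v, N ≤ v → ∀ r, r ≤ q → ¬ (H r n v ∧ D.ar r ξ v))
          (fun q _ => H2 q ξ n) (fun r1 hr1 _ => ⟨fun _ => omH P Tg, ?_⟩)
        intro ν2 c2 hg2 hrr2 hl2 w2 hw2 u2 hu2
        have := gn_zf hg2
        obtain ⟨t1, t2, t3⟩ := hB P ν2 c2 hg2 hrr2
        obtain ⟨f1, f2, f3, f4, f5⟩ := hE P Ω D ν2 c2 hg2 hrr2
        have hlt := le_of_anti hg2.anti
        have s0 : ν2 (w2 0) = omH P Tg := (hw2 0).trans q0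
        have s1 : ν2 (w2 1) = aN D := (hw2 1).trans q2
        have s2 : ν2 (w2 2) = SSA.hN H := (hw2 2).trans qu
        have s3 : ν2 (w2 3) = chkH ξ := (hw2 3).trans hj
        have s4 : ν2 (w2 4) = numH P Tg n := (hw2 4).trans hjn
        obtain ⟨N0, hN0⟩ := hr1
        obtain ⟨l2, hl2⟩ := hl2
        refine ⟨nu N0, ?_, ?_⟩
        · beta_reduce
          rw [t3 _ s0]
          exact nu_mem_om N0
        · intro v hv hNv ⟨g1, g2⟩
          beta_reduce at hv g1 g2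
          rw [t3 _ s0] at hv
          obtain ⟨v, rfl⟩ := t1 v hv
          have hNv' : N0 ≤ v := by
            rcases hNv with h | h
            · obtain ⟨i, hi, e⟩ := (mem_nu v _).1 h
              rw [nu_inj e]
              exact hi.le
            · exact (nu_inj h).le
          rw [t2 _ n s4, pairIn_iff] at g1
          rw [pairIn_iff] at g2
          obtain ⟨a1, ha1⟩ := (f5 H H1 (w2 2) n v s2).1 g1
          obtain ⟨a2, ha2⟩ := (f3 (w2 1) (w2 3) ξ v s1 s3).1 g2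
          let l := max a1 (max a2 l2)
          have j1 : c2 l ≤ c2 a1 := hlt _ _ (le_max_left _ _)
          have j2 : c2 l ≤ c2 a2 := hlt _ _ ((le_max_left _ _).trans (le_max_right _ _))
          have j3 : c2 l ≤ r1 := (hlt _ _ ((le_max_right _ _).trans (le_max_right _ _))).trans hl2
          obtain ⟨s, hs, hH⟩ := ha1 (c2 l) j1
          obtain ⟨s', hs', hA⟩ := ha2 s (hs.trans j2)
          exact hN0 v hNv' s' ((hs'.trans hs).trans j3) ⟨H1 _ _ _ _ hs' hH, hA⟩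
      · intro x hx
        beta_reduce at hx ⊢
        obtain ⟨ξ, j, hj, rfl⟩ := (e1 _ q1 x).1 hx
        have i2 := Sb_u0
        refine hG P ν' c' hg' (fun N _ (w : Fin 5 → N) => Sb (w 0) (w 1) (w 2) (w 3) (w 4))
          ![w' 0, w' 2, w' 3, u 0, j] l0
          (fun q => ∃ n v y, v ≤ y ∧ Rs (oN P Ω) (ν m) (chkH ξ) q n v ∧ H q n y ∧ D.ar q ξ y)
          (fun q _ => H3 q ξ) (fun r1 hr1 hr3 => ⟨fun _ => oN P Ω, ?_⟩)
        intro ν2 c2 hg2 hrr2 hl2 w2 hw2 u2 hu2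
        have := gn_zf hg2
        obtain ⟨t1, t2, t3⟩ := hB P ν2 c2 hg2 hrr2
        obtain ⟨f1, f2, f3, f4, f5⟩ := hE P Ω D ν2 c2 hg2 hrr2
        have hlt := le_of_anti hg2.anti
        have s0 : ν2 (w2 0) = omH P Tg := (hw2 0).trans q0
        have s1 : ν2 (w2 1) = aN D := (hw2 1).trans q2
        have s2 : ν2 (w2 2) = ν m := (hw2 2).trans q3
        have s3 : ν2 (w2 3) = SSA.hN H := (hw2 3).trans qu
        have s4 : ν2 (w2 4) = chkH ξ := (hw2 4).trans hj
        have s5 : ν2 (u2 0) = oN P Ω := hu2 0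
        obtain ⟨n, v, y, hvy, g1, g2, g3⟩ := hr1
        obtain ⟨l2, hl2⟩ := hl2
        obtain ⟨jn, hjn⟩ := hrr2.1 n
        obtain ⟨jv, hjv⟩ := hrr2.1 v
        have hT : TotR (qc ν2 c2 (u2 0)) (qc ν2 c2 (w2 0)) (qc ν2 c2 (w2 2)) :=
          hk ν2 c2 hg2 ⟨l2, ((hl2.trans hr3).trans hl0).trans hr2⟩ ![u2 0, w2 0, w2 2] (by
            intro t
            fin_cases t
            · exact s5
            · exact s0
            · exact s2)
        have hTr : Trr (qc ν2 c2 (w2 4)) (qc ν2 c2 jn) (qc ν2 c2 jv) (qc ν2 c2 (w2 2)) :=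
          g1 ν2 c2 hg2 ⟨l2, hl2⟩ ![u2 0, w2 0, w2 2, w2 4, jn, jv] (by
            intro t
            fin_cases t
            · exact s5
            · exact s0
            · exact s2
            · exact s4
            · exact hjn
            · exact hjv) hT
        rw [t2 jn n hjn, t2 jv v hjv] at hTr
        refine ⟨nu n, nu v, nu y, ?_, ?_, ?_, ?_, hTr, ?_, ?_⟩
        · beta_reduce
          rw [t3 _ s0]
          exact nu_mem_om n
        · beta_reduce
          rw [t3 _ s0]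
          exact nu_mem_om v
        · beta_reduce
          rw [t3 _ s0]
          exact nu_mem_om y
        · rcases hvy.lt_or_eq with h | h
          · exact Or.inl (nu_lt h)
          · exact Or.inr (by rw [h])
        · beta_reduce
          rw [pairIn_iff]
          exact (f5 H H1 (w2 3) n y s3).2 ⟨l2, fun q hq => ⟨q, le_rfl, H1 _ _ _ _ (hq.trans hl2) g2⟩⟩
        · beta_reduce
          rw [pairIn_iff]
          exact (f3 (w2 1) (w2 4) ξ y s1 s4).2
            ⟨l2, fun q hq => ⟨q, le_rfl, D.ar_mono (hq.trans hl2) g3⟩⟩)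
  obtain ⟨K, hK1, hK2⟩ := main
  have q0 : qc ν c w0 = om := b3 w0 hw0
  refine ⟨K, fun x hx n => ?_, fun x hx => ?_⟩
  · obtain ⟨k', hk1, hk2⟩ := hK1 x hx (nu n) (by show E _ (qc ν c w0); rw [q0]; exact nu_mem_om n)
    have hk1' : E k' (om : GQ ν c) := by rw [← q0]; exact hk1
    obtain ⟨k', rfl⟩ := b1 k' hk1'
    refine ⟨k', fun v hv h => hk2 (nu v) (by show E _ (qc ν c w0); rw [q0]; exact nu_mem_om v)
      ?_ ⟨pairIn_iff.2 h.1, pairIn_iff.2 h.2⟩⟩
    rcases hv.lt_or_eq with h' | h'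
    · exact Or.inl (nu_lt h')
    · exact Or.inr (by rw [h'])
  · obtain ⟨n, v, y, h1, h2, h3, h4, h5, h6, h7⟩ := hK2 x hx
    have h1' : E n (om : GQ ν c) := by rw [← q0]; exact h1
    have h2' : E v (om : GQ ν c) := by rw [← q0]; exact h2
    have h3' : E y (om : GQ ν c) := by rw [← q0]; exact h3
    obtain ⟨n, rfl⟩ := b1 n h1'
    obtain ⟨v, rfl⟩ := b1 v h2'
    obtain ⟨y, rfl⟩ := b1 y h3'
    refine ⟨n, v, y, ?_, trr_iff8.1 h5, pairIn_iff.1 h6, pairIn_iff.1 h7⟩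
    rcases h4 with h | h
    · obtain ⟨i, hi, e⟩ := (mem_nu y _).1 h
      rw [nu_inj e]
      exact hi.le
    · exact (nu_inj h).le

end SSA
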